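import Pool.Agent.V11141.LR.Graph

/-!
# Graphs without `K_{r,r}` whose exponent is close to `2 - 1 / r` have large rank

Let `G` be a graph on `n` vertices without `K_{r,r}`, and let `M` be a matrix of rank `ρ` over any
field whose entries outside of the diagonal are nonzero exactly at the pairs of adjacent vertices
(the diagonal is arbitrary). (1) If `ρ ≥ 1` then `e(G) ≤ 5 r (4 r ρ) ^ (r - 1) n`. (2) So if `r ≥ 2`
and `G` has `c n ^ (2 - 1 / r - δ)` edges then `ρ ≥ c' n ^ (1 / r - δ / (r - 1))`; as `δ → 0` this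
is a necessary condition on the graphs asked for in Q1. (3) If the adjacency of two vertices only
depends on the value of a bilinear form `∑ a_i(u) b_i(v)` with `d` terms over a finite field with `q`
elements then `(d + 1) ^ (q - 1)` has the same lower bound; the vectors are arbitrary functions of
the vertices.

See `Results/MP_f4a4e4_co/LowRankSupports.lean` for the theorem on matrices and the idea of the proof.
-/

set_option autoImplicit false

namespace Pool.Agent.Results.MP_9a747a_co.LowRankSupports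

open Finset

/-- For `u ≠ v` the entry `M u v` is nonzero if and only if `u` and `v` are adjacent. -/
def Fits {V F : Type} [Field F] (M : Matrix V V F) (G : SimpleGraph V) : Prop :=
  ∀ u v, u ≠ v → (M u v ≠ 0 ↔ G.Adj u v)

theorem rank_lower (r : ℕ) (hr : 2 ≤ r) (δ c : ℝ) (hc : 0 < c) :
    ∃ c' : ℝ, 0 < c' ∧
    ∀ (V F : Type) [Fintype V] [Nonempty V] [Field F] (G : SimpleGraph V) (M : Matrix V V F),
    Fits M G →
    (completeBipartiteGraph (Fin r) (Fin r)).Free G →
    c * (Fintype.card V : ℝ) ^ (2 - 1 / (r : ℝ) - δ) ≤ Nat.card G.edgeSet →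
    c' * (Fintype.card V : ℝ) ^ (1 / (r : ℝ) - δ / ((r : ℝ) - 1)) ≤ (M.rank : ℝ) := by
  have hr0 : (0 : ℝ) < r := by
    have : 0 < r := by omega
    exact_mod_cast this
  have hr1 : (0 : ℝ) < (r : ℝ) - 1 := by
    have : (2 : ℝ) ≤ r := by exact_mod_cast hr
    linarith
  set b : ℝ := c / (5 * r) with hb
  have hb0 : 0 < b := by positivity
  refine ⟨b ^ (1 / ((r : ℝ) - 1)) / (4 * r), by positivity, ?_⟩
  intro V F _ _ _ G M hM hfree he
  set n := Fintype.card V with hn
  have hn0 : 0 < n := Fintype.card_pos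
  have hnR : (0 : ℝ) < n := by exact_mod_cast hn0
  have hrk : 1 ≤ M.rank := by
    by_contra h0
    have h1 : M.rank = 0 := by omega
    have h2 : M = 0 := by
      have h3 := Matrix.rank_eq_finrank_span_row M
      rw [h1] at h3
      have h4 := Submodule.finrank_eq_zero.1 h3.symm
      rw [Submodule.span_eq_bot] at h4
      ext u v
      exact congrFun (h4 (M.row u) ⟨u, rfl⟩) v
    have h3 : Nat.card G.edgeSet = 0 := by
      have : G = ⊥ := by
        ext u v
        constructor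
        · intro huv
          have h4 := (hM u v huv.ne).2 huv
          rw [h2] at h4
          exact absurd rfl h4
        · intro huv
          exact absurd huv (by simp)
      rw [this]
      simp
    rw [h3, Nat.cast_zero] at he
    have : 0 < c * (n : ℝ) ^ (2 - 1 / (r : ℝ) - δ) := by positivity
    linarith
  have hg := Pool.Agent.V11141.LR.graph_bound G M (by omega : 1 ≤ r) hrk le_rfl hM hfree
  set X : ℝ := 4 * r * M.rank with hX
  have hrkR : (1 : ℝ) ≤ M.rank := by exact_mod_cast hrk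
  have hX0 : 0 < X := by positivity
  have h1 : (Nat.card G.edgeSet : ℝ) ≤ 5 * r * X ^ (r - 1) * n := by
    rw [hX]
    exact_mod_cast hg
  have h2 : (n : ℝ) ^ (2 - 1 / (r : ℝ) - δ) = (n : ℝ) ^ (1 - 1 / (r : ℝ) - δ) * n := by
    rw [show (2 : ℝ) - 1 / r - δ = (1 - 1 / r - δ) + 1 by ring, Real.rpow_add hnR, Real.rpow_one]
  have h3 : b * (n : ℝ) ^ (1 - 1 / (r : ℝ) - δ) ≤ X ^ (r - 1) := by
    have h4 := he.trans h1
    rw [h2, ← mul_assoc] at h4
    have h5 := le_of_mul_le_mul_right h4 hnR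
    have h6 : c = 5 * r * b := by rw [hb]; field_simp
    rw [h6, mul_assoc] at h5
    exact le_of_mul_le_mul_left h5 (by positivity)
  have h4 : X ^ (r - 1) = X ^ ((r : ℝ) - 1) := by
    rw [← Real.rpow_natCast, Nat.cast_sub (by omega), Nat.cast_one]
  have h5 : (b ^ (1 / ((r : ℝ) - 1)) * (n : ℝ) ^ (1 / (r : ℝ) - δ / ((r : ℝ) - 1))) ^
      ((r : ℝ) - 1) = b * (n : ℝ) ^ (1 - 1 / (r : ℝ) - δ) := by
    rw [Real.mul_rpow (by positivity) (by positivity), ← Real.rpow_mul hb0.le,
      ← Real.rpow_mul hnR.le, one_div_mul_cancel hr1.ne', Real.rpow_one]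
    congr 2
    field_simp
  have h6 : b ^ (1 / ((r : ℝ) - 1)) * (n : ℝ) ^ (1 / (r : ℝ) - δ / ((r : ℝ) - 1)) ≤ X := by
    rw [← Real.rpow_le_rpow_iff (by positivity) hX0.le hr1, h5, ← h4]
    exact h3
  rw [div_mul_eq_mul_div, div_le_iff₀ (by positivity)]
  rw [hX] at h6
  linarith

theorem result :
    -- (1) graphs without `K_{r,r}`
    (∀ (V F : Type) [Fintype V] [Field F] (G : SimpleGraph V) (M : Matrix V V F) (r ρ : ℕ),
      1 ≤ r → 1 ≤ ρ → M.rank ≤ ρ → Fits M G →
      (completeBipartiteGraph (Fin r) (Fin r)).Free G →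
      Nat.card G.edgeSet ≤ 5 * r * (4 * r * ρ) ^ (r - 1) * Fintype.card V) ∧
    -- (2) graphs of exponent `2 - 1 / r - δ`
    (∀ r : ℕ, 2 ≤ r → ∀ δ c : ℝ, 0 < c → ∃ c' : ℝ, 0 < c' ∧
      ∀ (V F : Type) [Fintype V] [Nonempty V] [Field F] (G : SimpleGraph V) (M : Matrix V V F),
      Fits M G → (completeBipartiteGraph (Fin r) (Fin r)).Free G →
      c * (Fintype.card V : ℝ) ^ (2 - 1 / (r : ℝ) - δ) ≤ Nat.card G.edgeSet →
      c' * (Fintype.card V : ℝ) ^ (1 / (r : ℝ) - δ / ((r : ℝ) - 1)) ≤ (M.rank : ℝ)) ∧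
    -- (3) adjacency given by the values of a bilinear form over a finite field
    (∀ r : ℕ, 2 ≤ r → ∀ δ c : ℝ, 0 < c → ∃ c' : ℝ, 0 < c' ∧
      ∀ (V F : Type) [Fintype V] [Nonempty V] [Field F] [Fintype F] (d : ℕ) (a b : V → Fin d → F)
        (A : Set F) (G : SimpleGraph V), (∀ u v, G.Adj u v ↔ u ≠ v ∧ ∑ i, a u i * b v i ∈ A) →
      (completeBipartiteGraph (Fin r) (Fin r)).Free G →
      c * (Fintype.card V : ℝ) ^ (2 - 1 / (r : ℝ) - δ) ≤ Nat.card G.edgeSet →
      c' * (Fintype.card V : ℝ) ^ (1 / (r : ℝ) - δ / ((r : ℝ) - 1)) ≤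
        ((d : ℝ) + 1) ^ (Fintype.card F - 1)) := by
  refine ⟨?_, ?_, ?_⟩
  · intro V F _ _ G M r ρ hr hρ hrank hM hfree
    exact Pool.Agent.V11141.LR.graph_bound G M hr hρ hrank hM hfree
  · intro r hr δ c hc
    exact rank_lower r hr δ c hc
  · intro r hr δ c hc
    obtain ⟨c', hc', h⟩ := rank_lower r hr δ c hc
    refine ⟨c', hc', ?_⟩
    intro V F _ _ _ _ d a b A G hG hfree he
    obtain ⟨g, hg1, hg2⟩ := Pool.Agent.V11141.LR.exists_poly A
    have h1 := h V F G (Matrix.of (fun x y => g.eval (∑ i, a x i * b y i))) (by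
      intro u v huv
      rw [hG, Matrix.of_apply, hg2]
      exact ⟨fun h => ⟨huv, h⟩, fun h => h.2⟩) hfree he
    have h2 := Pool.Agent.V11141.LR.rank_poly g hg1 a b
    refine h1.trans ?_
    exact_mod_cast h2

end Pool.Agent.Results.MP_9a747a_co.LowRankSupports
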